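import Pool.Agent.H77.SSA.Stmts

/-!
SLOW and D2C: slow functions and the combinatorial step for one coordinate.
-/

set_option linter.unusedVariables false

namespace SSA

open Filter

theorem ssa_slow : SLOWStmt := by
  classical
  intro g
  let P : ℕ → ℕ → Prop := fun k m => ∀ t < m, ∀ i < m, g t i ≤ k
  refine ⟨fun k => Nat.findGreatest (P k) k, fun m => ?_, fun t => ?_⟩
  · have h1 : ∀ᶠ k in atTop, ∀ t ∈ Finset.range m, ∀ i ∈ Finset.range m, g t i ≤ k := by
      rw [Filter.eventually_all_finset]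
      intro t _
      rw [Filter.eventually_all_finset]
      intro i _
      exact eventually_ge_atTop _
    filter_upwards [h1, eventually_ge_atTop m] with k hk hm
    exact Nat.le_findGreatest hm fun t ht i hi =>
      hk t (Finset.mem_range.2 ht) i (Finset.mem_range.2 hi)
  · have h1 : ∀ᶠ k in atTop, ∀ t' ∈ Finset.range (t + 1), ∀ i ∈ Finset.range (t + 1),
        g t' i ≤ k := by
      rw [Filter.eventually_all_finset]
      intro t _
      rw [Filter.eventually_all_finset]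
      intro i _
      exact eventually_ge_atTop _
    filter_upwards [h1, eventually_ge_atTop (t + 1)] with k hk hm
    have h2 : t + 1 ≤ Nat.findGreatest (P k) k := Nat.le_findGreatest hm fun t' ht i hi =>
      hk t' (Finset.mem_range.2 ht) i (Finset.mem_range.2 hi)
    have h3 : P k (Nat.findGreatest (P k) k) :=
      Nat.findGreatest_spec (m := 0) (Nat.zero_le _) (fun t ht => absurd ht (Nat.not_lt_zero _))
    intro i hi
    exact h3 t h2 i hi

/-- strictly increasing choices above given bounds -/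
theorem d2c_seq (Q : ℕ → ℕ → Prop) (hQ : ∀ j b, ∃ k, b ≤ k ∧ Q j k) (m : ℕ → ℕ) :
    ∃ κ : ℕ → ℕ, StrictMono κ ∧ (∀ j, m j ≤ κ j) ∧ ∀ j, Q j (κ j) := by
  choose F hF1 hF2 using hQ
  let κ : ℕ → ℕ := fun j => Nat.rec (F 0 (m 0)) (fun j r => F (j + 1) (max (r + 1) (m (j + 1)))) j
  have hs : ∀ j, κ (j + 1) = F (j + 1) (max (κ j + 1) (m (j + 1))) := fun j => rfl
  refine ⟨κ, strictMono_nat_of_lt_succ fun j => ?_, fun j => ?_, fun j => ?_⟩
  · rw [hs]
    exact lt_of_lt_of_le (Nat.lt_succ_self _) ((le_max_left _ _).trans (hF1 _ _))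
  · cases j with
    | zero => exact hF1 0 (m 0)
    | succ j =>
      rw [hs]
      exact (le_max_right _ _).trans (hF1 _ _)
  · cases j with
    | zero => exact hF2 0 (m 0)
    | succ j =>
      rw [hs]
      exact hF2 _ _

theorem ssa_d2c (hslow : SLOWStmt) : D2CStmt := by
  classical
  intro st y W Θ m S n hW h1 h2 h3 h4 h5
  -- the levels
  obtain ⟨κ, hκ, hκm, hκQ⟩ := d2c_seq
    (fun j k => k ∉ Θ ∧ ∃ B, st k = .opn B ∧ y j k ∈ B)
    (fun j b => by
      obtain ⟨k, hk, B, hB⟩ := (frequently_atTop.1 (h2 j)) (max b (Θ.sup id + 1))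
      refine ⟨k, (le_max_left _ _).trans hk, fun hkΘ => ?_, B, hB⟩
      have h6 : k ≤ Θ.sup id := Finset.le_sup (f := id) hkΘ
      have h7 : Θ.sup id + 1 ≤ k := (le_max_right _ _).trans hk
      omega) m
  -- enumeration
  obtain ⟨e, he⟩ := (Set.countable_iff_exists_subset_range.1 hW)
  -- thresholds
  have hT : ∀ s i, ∃ K, e s ∈ W → ∀ k ≥ K, e s k ≠ y i k := by
    intro s i
    by_cases hs : e s ∈ W
    · obtain ⟨K, hK⟩ := eventually_atTop.1 ((h4 _ hs).2.2 i)
      exact ⟨K, fun _ => hK⟩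
    · exact ⟨0, fun h => absurd h hs⟩
  choose T hT using hT
  choose kj hkj1 Bj hkj2 hkj3 hkj4 using fun j => h5 (2 * j)
  obtain ⟨h, hh1, hh2⟩ := hslow fun t i => Nat.casesOn t (kj i + 1) (fun s => T s i)
  let im : ℕ → Finset ℕ := fun k => (Finset.range (h k)).image fun i => y i k
  have him : ∀ k, (im k).card ≤ h k := fun k => by
    refine Finset.card_image_le.trans ?_
    rw [Finset.card_range]
  let st' : ℕ → St := fun k => if k ∈ Θ then st k else
    if hj : ∃ j, j ≤ n ∧ κ j = k then .hit (y hj.choose k) else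
      match st k with
      | .hit i => .hit i
      | .opn B => .opn (B \ im k)
  have hs1 : ∀ k, k ∈ Θ → st' k = st k := fun k hk => if_pos hk
  have hs2 : ∀ j ≤ n, st' (κ j) = .hit (y j (κ j)) := by
    intro j hj
    have hex : ∃ j', j' ≤ n ∧ κ j' = κ j := ⟨j, hj, rfl⟩
    have h6 : st' (κ j) = .hit (y hex.choose (κ j)) := by
      show (if κ j ∈ Θ then st (κ j) else _) = _
      rw [if_neg (hκQ j).1, dif_pos hex]
    rw [h6, hκ.injective hex.choose_spec.2]
  have hs3 : ∀ k, k ∉ Θ → (¬ ∃ j, j ≤ n ∧ κ j = k) → ∀ i, st k = .hit i → st' k = .hit i := by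
    intro k hk hj i hi
    show (if k ∈ Θ then st k else _) = _
    rw [if_neg hk, dif_neg hj, hi]
  have hs4 : ∀ k, k ∉ Θ → (¬ ∃ j, j ≤ n ∧ κ j = k) → ∀ B, st k = .opn B →
      st' k = .opn (B \ im k) := by
    intro k hk hj i hi
    show (if k ∈ Θ then st k else _) = _
    rw [if_neg hk, dif_neg hj, hi]
  -- large levels
  obtain ⟨K0, hK0⟩ : ∃ K0, ∀ k ≥ K0, k ∉ Θ ∧ ¬ ∃ j, j ≤ n ∧ κ j = k := by
    refine ⟨max (Θ.sup id + 1) (κ n + 1), fun k hk => ⟨fun hkΘ => ?_, fun ⟨j, hj, hjk⟩ => ?_⟩⟩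
    · have h6 : k ≤ Θ.sup id := Finset.le_sup (f := id) hkΘ
      have h7 : Θ.sup id + 1 ≤ k := (le_max_left _ _).trans hk
      omega
    · have h6 : κ j ≤ κ n := hκ.monotone hj
      have h7 : κ n + 1 ≤ k := (le_max_right _ _).trans hk
      omega
  let S' : Sl := fun k => if (S k ∪ im k).card ≤ k then S k ∪ im k else ∅
  refine ⟨st', S', ?_, hs1, ?_, ?_, ?_, ?_, ?_, ?_⟩
  · intro k
    by_cases hk : k ∈ Θ
    · rw [hs1 k hk]
      exact St.le_refl _
    by_cases hj : ∃ j, j ≤ n ∧ κ j = k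
    · obtain ⟨j, hj, rfl⟩ := hj
      rw [hs2 j hj]
      obtain ⟨-, B, hB, hyB⟩ := hκQ j
      rw [hB]
      exact hyB
    · cases hst : st k with
      | hit i =>
        rw [hs3 k hk hj i hst]
        exact rfl
      | opn B =>
        rw [hs4 k hk hj B hst]
        exact Finset.sdiff_subset
  · refine ((Set.finite_Iic n).image κ).subset ?_
    rintro k ⟨i, hi1, hi2⟩
    by_contra hk2
    have hj : ¬ ∃ j, j ≤ n ∧ κ j = k := fun ⟨j, hj, hjk⟩ => hk2 ⟨j, hj, hjk⟩
    by_cases hk : k ∈ Θ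
    · exact hi2 ((hs1 k hk).symm.trans hi1)
    · cases hst : st k with
      | hit i' =>
        rw [hs3 k hk hj i' hst] at hi1
        exact hi2 (hst.trans hi1)
      | opn B =>
        rw [hs4 k hk hj B hst] at hi1
        exact St.noConfusion hi1
  · intro j hj
    exact ⟨κ j, hκm j, hs2 j hj⟩
  · intro i
    filter_upwards [h3 i, hh1 (i + 1), eventually_ge_atTop K0] with k hk1 hk2 hk3
    obtain ⟨hk4, hk5⟩ := hK0 k hk3
    cases hst : st k with
    | hit i' =>
      rw [hs3 k hk4 hk5 i' hst]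
      rw [hst] at hk1
      exact fun hc => hk1 (congrArg St.hit hc)
    | opn B =>
      rw [hs4 k hk4 hk5 B hst]
      show y i k ∉ B \ im k
      intro hc
      exact (Finset.mem_sdiff.1 hc).2
        (Finset.mem_image.2 ⟨i, Finset.mem_range.2 hk2, rfl⟩)
  · intro w hw
    obtain ⟨s, rfl⟩ := he hw
    obtain ⟨hw1, hw2, -⟩ := h4 _ hw
    obtain ⟨K1, hK1⟩ := eventually_atTop.1 (hw2.and (hh2 (s + 1)))
    rw [frequently_atTop]
    intro N
    obtain ⟨k, hk, B, hB1, hB2, -⟩ := h5 (max N (max K0 K1))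
    have hkN : N ≤ k := (le_max_left _ _).trans hk
    have hkK0 : K0 ≤ k := (le_max_left _ _).trans ((le_max_right _ _).trans hk)
    have hkK1 : K1 ≤ k := (le_max_right _ _).trans ((le_max_right _ _).trans hk)
    obtain ⟨hk4, hk5⟩ := hK0 k hkK0
    obtain ⟨hk6, hk7⟩ := hK1 k hkK1
    refine ⟨k, hkN, _, hs4 k hk4 hk5 B hB1, Finset.mem_sdiff.2 ⟨?_, ?_⟩⟩
    · by_contra hc
      exact hk6 (hB2 (Finset.mem_sdiff.2 ⟨Finset.mem_range.2 (hw1 k), hc⟩))
    · intro hc
      obtain ⟨i, hi1, hi2⟩ := Finset.mem_image.1 hc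
      have h8 : T s i ≤ k := hk7 i (Finset.mem_range.1 hi1)
      exact hT s i hw k h8 hi2.symm
  · intro k
    show (if (S k ∪ im k).card ≤ k then S k ∪ im k else ∅ : Finset ℕ).card ≤ k
    split_ifs with hc
    · exact hc
    · exact Nat.zero_le _
  · intro N
    obtain ⟨K1, hK1⟩ := eventually_atTop.1 (hh2 0)
    let j := max N (max K0 K1)
    have hjN : N ≤ j := le_max_left _ _
    have hjk : j ≤ kj j := (by omega : j ≤ 2 * j).trans (hkj1 j)
    have hkK0 : K0 ≤ kj j := ((le_max_left _ _).trans (le_max_right _ _)).trans hjk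
    have hkK1 : K1 ≤ kj j := ((le_max_right _ _).trans (le_max_right _ _)).trans hjk
    obtain ⟨hk4, hk5⟩ := hK0 _ hkK0
    have hhj : h (kj j) ≤ j := by
      by_contra hc
      push Not at hc
      have h9 : kj j + 1 ≤ kj j := hK1 _ hkK1 j hc
      omega
    have hcard : (S (kj j) ∪ im (kj j)).card + N ≤ kj j := by
      have h10 := Finset.card_union_le (S (kj j)) (im (kj j))
      have h11 := him (kj j)
      have h12 := hkj4 j
      omega
    have hS' : S' (kj j) = S (kj j) ∪ im (kj j) := if_pos (by omega)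
    refine ⟨kj j, hjN.trans hjk, _, hs4 _ hk4 hk5 _ (hkj2 j), ?_, ?_⟩
    · rw [hS']
      intro a ha
      rw [Finset.mem_sdiff] at ha
      by_cases haB : a ∈ Bj j
      · refine Finset.mem_union_right _ ?_
        by_contra hc
        exact ha.2 (Finset.mem_sdiff.2 ⟨haB, hc⟩)
      · exact Finset.mem_union_left _ (hkj3 j (Finset.mem_sdiff.2 ⟨ha.1, haB⟩))
    · rw [hS']
      exact hcard

end SSA
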